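import Pool.Agent.H648.Q.Defs2

/-!
# Project Q648: the final assembly for positive leading coefficient
-/

set_option autoImplicit false

namespace Pool.Agent.H996.Q648

open Finset Filter
open Pool.Agent.H376R2.MR (FK Fj lam)
open Pool.Agent.W78.GA (Qd nm prim bg dt ip cellM mE)
open Pool.Agent.W78.GT (Tr NT tri rts Qp)
open Pool.Agent.H648.Q (Fp)
open Pool.Agent.H648.Q2

theorem TX_mono (g : ℕ → ℤ) (b m : ℤ) (A : ℕ) (κ : ℤ) {X Y : ℝ} (h : X ≤ Y) :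
    TX g b m A κ X ⊆ TX g b m A κ Y := by
  classical
  intro e he
  unfold TX at *
  rw [mem_filter] at *
  exact ⟨Pool.Agent.W78.GT.tri_mono h h he.1, he.2⟩

theorem comb2 {a b c : ℤ} {A : ℕ} (ha : 0 < a) (hA : 1 ≤ A) (haA : a ∣ A)
    (hsv : S_SV2 b (a * c) A) (hcnt : S_CNT2 lam a b c) (k : ℤ)
    (hk : 1 ≤ k) {δ ε : ℝ} (hδ : 0 < δ) (hε : 0 < ε) : ∃ (C X₀ : ℝ), 1 ≤ C ∧ ∀ (X : ℝ) (N : ℕ),
      X₀ ≤ X → 1 ≤ N → X ≤ N / C → ∀ s : ℤ, (s = 1 ∨ s = -1) →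
      ((TX lam b (a * c) A (A * k) X).card : ℝ) ≤
        C * (N : ℝ) ^ ε * (((open scoped Classical in (Icc 1 N).filter
          (fun n : ℕ => lam (Fp a b c n).natAbs = s))).card : ℝ) + C + δ * X := by
  classical
  set κ : ℤ := A * k with hκ
  have hA' : (0 : ℤ) < A := by exact_mod_cast hA
  have hκ0 : 0 < κ := mul_pos hA' (by omega)
  have haκ : a ∣ κ := Dvd.dvd.mul_right haA _
  have haκ0 : 0 < a * κ := mul_pos ha hκ0
  have hM1 : 1 ≤ (a * κ).natAbs := Int.natAbs_pos.2 haκ0.ne'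
  have hMM : (((a * κ).natAbs : ℕ) : ℤ) = a * κ := Int.natAbs_of_nonneg haκ0.le
  obtain ⟨Q, hQ, X₀, hX⟩ := hsv κ (a * κ).natAbs hκ0.ne' hM1
    (Int.dvd_natAbs.2 (Dvd.intro_left a rfl)) (Dvd.intro k rfl) (by
      intro p hp hpd
      have h1 : (p : ℤ) ∣ a * κ := Int.natCast_dvd.2 hpd
      rcases (Nat.prime_iff_prime_int.1 hp).dvd_or_dvd h1 with h | h
      · exact h.trans haκ
      · exact h) δ hδ
  rw [hMM] at hX
  obtain ⟨C, hC, hN⟩ := hcnt κ Q hκ0 haκ hQ ε hε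
  refine ⟨C, X₀, hC, fun X N hXX hN1 hXN s hs => ?_⟩
  have h1 := hX X hXX
  have h2 := hN N hN1 s hs
  have hsplit : TX lam b (a * c) A κ X ⊆
      ((tri (b * κ) (a * c * κ ^ 2) (N / C) (N / C)).filter (fun e => Int.gcd e.2.1 κ = 1 ∧
      lam (NT e) = -1 ∧ G1 (a * κ) Q e ∧ G1 (a * κ) Q (sw e))) ∪
      ((tri (b * κ) (a * c * κ ^ 2) X X).filter (fun e => Int.gcd e.2.1 κ = 1 ∧
      chi (b ^ 2 - 4 * (a * c)) A e.2.1 = 1 ∧ ¬ (G1 (a * κ) Q e ∧ G1 (a * κ) Q (sw e)))) := by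
    intro e he
    have he' := TX_mono lam b (a * c) A κ hXN he
    unfold TX at he he'
    rw [mem_filter] at he he'
    by_cases hg : G1 (a * κ) Q e ∧ G1 (a * κ) Q (sw e)
    · exact mem_union_left _ (mem_filter.2 ⟨he'.1, he.2.1, he.2.2.1, hg.1, hg.2⟩)
    · exact mem_union_right _ (mem_filter.2 ⟨he.1, he.2.1, he.2.2.2, hg⟩)
  have h3 : ((TX lam b (a * c) A κ X).card : ℝ) ≤
      (((tri (b * κ) (a * c * κ ^ 2) (N / C) (N / C)).filter (fun e => Int.gcd e.2.1 κ = 1 ∧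
      lam (NT e) = -1 ∧ G1 (a * κ) Q e ∧ G1 (a * κ) Q (sw e))).card : ℝ) +
      (((tri (b * κ) (a * c * κ ^ 2) X X).filter (fun e => Int.gcd e.2.1 κ = 1 ∧
      chi (b ^ 2 - 4 * (a * c)) A e.2.1 = 1 ∧
        ¬ (G1 (a * κ) Q e ∧ G1 (a * κ) Q (sw e)))).card : ℝ) := by
    exact_mod_cast (card_le_card hsplit).trans (card_union_le _ _)
  linarith

theorem all_of {a b c : ℤ} {A : ℕ} (ha : 0 < a) (hA : 1 ≤ A) (haA : a ∣ A)
    (hpos : S_POS lam b (a * c) A) (hsv : S_SV2 b (a * c) A) (hcnt : S_CNT2 lam a b c) :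
    S_ALL a b c := by
  classical
  intro s hs ε hε
  obtain ⟨B, c₁, X₁, hc₁, htot⟩ := hpos
  set I : Finset ℤ := Icc (1 : ℤ) B with hI
  set δ : ℝ := c₁ / (4 * (I.card + 1)) with hδ
  have hδ0 : 0 < δ := by positivity
  have hk : ∀ k : ℤ, ∃ (C X₀ : ℝ), 1 ≤ C ∧ (1 ≤ k → ∀ (X : ℝ) (N : ℕ),
      X₀ ≤ X → 1 ≤ N → X ≤ N / C →
      ((TX lam b (a * c) A (A * k) X).card : ℝ) ≤
        C * (N : ℝ) ^ (ε / 2) * (((Icc 1 N).filter
          (fun n : ℕ => lam (Fp a b c n).natAbs = s)).card : ℝ) + C + δ * X) := by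
    intro k
    by_cases hk : 1 ≤ k
    · obtain ⟨C, X₀, hC, h⟩ := comb2 ha hA haA hsv hcnt k hk hδ0 (half_pos hε)
      exact ⟨C, X₀, hC, fun _ X N h1 h2 h3 => h X N h1 h2 h3 s hs⟩
    · exact ⟨1, 0, le_rfl, fun h => absurd h hk⟩
  choose Ck Xk hCk hTk using hk
  set Cm : ℝ := 1 + ∑ k ∈ I, Ck k with hCm
  have hCk0 : ∀ k, 0 ≤ Ck k := fun k => by linarith [hCk k]
  have hCkm : ∀ k ∈ I, Ck k ≤ Cm := by
    intro k hk
    have := single_le_sum (f := Ck) (fun j _ => hCk0 j) hk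
    linarith
  have hCm1 : 1 ≤ Cm := by
    have : 0 ≤ ∑ k ∈ I, Ck k := sum_nonneg fun k _ => hCk0 k
    linarith
  have hCmpos : 0 < Cm := by linarith
  set Xm : ℝ := max X₁ (4 * Cm / c₁) + ∑ k ∈ I, |Xk k| with hXm
  have hcc : 0 < 4 * Cm / c₁ := by positivity
  have hXkm : ∀ k ∈ I, Xk k ≤ Xm := by
    intro k hk
    have h1 := single_le_sum (f := fun j => |Xk j|) (fun j _ => abs_nonneg _) hk
    have h2 := le_abs_self (Xk k)
    have h3 : 4 * Cm / c₁ ≤ max X₁ (4 * Cm / c₁) := le_max_right _ _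
    linarith
  have hXm1 : max X₁ (4 * Cm / c₁) ≤ Xm := by
    have : 0 ≤ ∑ k ∈ I, |Xk k| := sum_nonneg fun k _ => abs_nonneg _
    linarith
  -- the final count
  set c₂ : ℝ := c₁ / (2 * Cm * Cm) with hc₂
  have hc₂0 : 0 < c₂ := by positivity
  have hmain : ∀ N : ℕ, 1 ≤ N → Xm ≤ N / Cm → c₂ * (N : ℝ) ≤ (N : ℝ) ^ (ε / 2) *
      (((Icc 1 N).filter (fun n : ℕ => lam (Fp a b c n).natAbs = s)).card : ℝ) := by
    intro N hN hNX
    set S : ℝ := (((Icc 1 N).filter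
      (fun n : ℕ => lam (Fp a b c n).natAbs = s)).card : ℝ) with hS
    have hS0 : 0 ≤ S := Nat.cast_nonneg _
    set X : ℝ := N / Cm with hX
    have hX1 : 4 * Cm / c₁ ≤ X := (le_max_right _ _).trans (hXm1.trans hNX)
    have hXpos : 0 < X := by linarith
    have hNpos : (0 : ℝ) < N := by exact_mod_cast hN
    have hpow : 0 ≤ (N : ℝ) ^ (ε / 2) := by positivity
    have h1 := htot X ((le_max_left _ _).trans (hXm1.trans hNX))
    have hterm : ∀ k ∈ I, ((TX lam b (a * c) A (A * k) X).card : ℝ) ≤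
        Ck k * ((N : ℝ) ^ (ε / 2) * S + 1) + δ * X := by
      intro k hkI
      have hk0 : 1 ≤ k := (mem_Icc.1 hkI).1
      have h2 := hTk k hk0 X N ((hXkm k hkI).trans hNX) hN
        (div_le_div_of_nonneg_left hNpos.le (by linarith [hCk k]) (hCkm k hkI))
      rw [mul_assoc] at h2
      rw [mul_add, mul_one]
      exact h2
    have h2 := sum_le_sum hterm
    rw [sum_add_distrib, ← sum_mul, sum_const, nsmul_eq_mul] at h2
    have h3 : ∑ k ∈ I, Ck k ≤ Cm := by linarith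
    have h4 : (∑ k ∈ I, Ck k) * ((N : ℝ) ^ (ε / 2) * S + 1) ≤
        Cm * ((N : ℝ) ^ (ε / 2) * S + 1) :=
      mul_le_mul_of_nonneg_right h3 (by positivity)
    have h5 : (I.card : ℝ) * (δ * X) ≤ c₁ * X / 4 := by
      rw [hδ]
      have e1 : (I.card : ℝ) * (c₁ / (4 * (I.card + 1)) * X) =
          (c₁ * X / 4) * ((I.card : ℝ) / (I.card + 1)) := by
        field_simp
      rw [e1]
      have h6 : (I.card : ℝ) / (I.card + 1) ≤ 1 := by
        rw [div_le_one (by positivity)]; linarith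
      have h7 : 0 ≤ c₁ * X / 4 := by positivity
      nlinarith
    have h6 : Cm ≤ c₁ * X / 4 := by
      rw [div_le_iff₀ hc₁] at hX1
      linarith
    have h7 : c₁ * X ≤ 2 * Cm * ((N : ℝ) ^ (ε / 2) * S) := by
      rw [mul_add, mul_one] at h4
      linarith
    have h8 : c₂ * (N : ℝ) = c₁ * X / (2 * Cm) := by
      rw [hc₂, hX]
      field_simp
    rw [h8, div_le_iff₀ (by positivity)]
    linarith
  -- choose N₀
  have ht : Tendsto (fun N : ℕ => (N : ℝ) ^ (ε / 2)) atTop atTop :=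
    (tendsto_rpow_atTop (half_pos hε)).comp tendsto_natCast_atTop_atTop
  have ht2 : Tendsto (fun N : ℕ => (N : ℝ) / Cm) atTop atTop :=
    tendsto_natCast_atTop_atTop.atTop_div_const hCmpos
  obtain ⟨N₀, hN₀⟩ := eventually_atTop.1 (((ht.eventually_ge_atTop (1 / c₂)).and
    (ht2.eventually_ge_atTop Xm)).and (eventually_ge_atTop 1))
  refine ⟨N₀, fun N hN => ?_⟩
  obtain ⟨⟨h1, h2⟩, h3⟩ := hN₀ N hN
  have h4 := hmain N h3 h2
  have hNpos : (0 : ℝ) < N := by exact_mod_cast h3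
  have hp : 0 < (N : ℝ) ^ (ε / 2) := Real.rpow_pos_of_pos hNpos _
  have h5 : (N : ℝ) ^ (1 - ε) * (N : ℝ) ^ (ε / 2) * (N : ℝ) ^ (ε / 2) = N := by
    rw [mul_assoc, ← Real.rpow_add hNpos, ← Real.rpow_add hNpos]
    have : 1 - ε + (ε / 2 + ε / 2) = 1 := by ring
    rw [this, Real.rpow_one]
  have h6 : 1 ≤ c₂ * (N : ℝ) ^ (ε / 2) := by
    rw [div_le_iff₀ hc₂0] at h1
    linarith
  have h7 : 0 ≤ (N : ℝ) ^ (1 - ε) := by positivity
  have h8 : (N : ℝ) ^ (1 - ε) * (N : ℝ) ^ (ε / 2) ≤ c₂ * (N : ℝ) := by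
    calc (N : ℝ) ^ (1 - ε) * (N : ℝ) ^ (ε / 2) ≤
        (N : ℝ) ^ (1 - ε) * (N : ℝ) ^ (ε / 2) * (c₂ * (N : ℝ) ^ (ε / 2)) :=
          le_mul_of_one_le_right (by positivity) h6
      _ = c₂ * ((N : ℝ) ^ (1 - ε) * (N : ℝ) ^ (ε / 2) * (N : ℝ) ^ (ε / 2)) := by ring
      _ = c₂ * (N : ℝ) := by rw [h5]
  have h9 := h8.trans h4
  rw [mul_comm ((N : ℝ) ^ (ε / 2))] at h9
  exact le_of_mul_le_mul_right h9 hp

end Pool.Agent.H996.Q648
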